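import Mathlib
import Pool.Agent.Results.MP_44a246_nt.UniformCurves
import Pool.Agent.R559.NP.Near

/-!
# Vojta's inequality with truncated counting function and discriminant term: algebraic points of every
# degree on all curves near a generic number

Let `a_1, …, a_q` be `q ≥ 3` distinct rational numbers. As in the starting result `UniformCurves` we
consider ALL smooth projective curves `Y` over ALL number fields, all finite maps `t : Y → ℙ¹` which
are unramified outside the fibres over the `a_j` and all reduced effective divisors `D` on `Y`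
contained in these fibres (by Belyi's theorem every reduced divisor on every curve over every number
field is contained in the fibres over the `a_j` for a suitable `t`). Let `A` be the ring of the
functions on `Y` with poles only over `∞`, a Dedekind domain finite over `ℚ[t]`, of rank `N`, and let
`E_j` be the ideal of the points over `a_j` which are not points of `D`. Then
`degree = q - (∑_j dim (A / E_j)) / N = 2 + deg (K_Y + D) / deg t`. The points `P` of `Y` over a number
field `L` are the homomorphisms `φ : A → L`.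

We prove: for almost all real numbers `ξ`, for ALL `r ≥ 2`, ALL `a_j`, ALL `Y`, `t`, `D`, all `ε > 0`
and all `M` there is a constant `C₀` with
`(2 + deg (K_Y + D) / deg t - ε) h(x) ≤ N_S^{(1)}(D, P) + d(L) + ∑_{p ∈ S} log p + C₀`
for ALL algebraic numbers `x` of degree `r` with `|x - ξ| ≤ M H(x)^(-r (r + 1))`, ALL points `P` with
`t(P) = x`, all number fields `L` over which `P` is defined and all finite sets `S` of primes. Here
`H(x) = exp h(x)` is the absolute height; as `H(x)^r` is, up to constants, the naive height, this is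
the quality of approximation `H^(-(r+1))` of the theorems of Wirsing, Sprindzhuk and Beresnevich (for
almost all `ξ` there are infinitely many such real `x`). For almost all complex `ξ` the same is true
with `|x - ξ| ≤ M H(x)^(-r (r + 1) / 2)`. The inequality is stronger than that of the question by
`2 h(x)`, and there are no exceptions.

More generally let the algebraic numbers be mapped in any way to a metric space (for example embedded
in the algebraic closure of `ℚ_p`), and let `κ ≤ q`, `τ > 0`. The points which are approximated with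
exponent `τ` by algebraic numbers of degree `r` always form a set of dimension at most
`r (r + 1) / τ`; outside a set of dimension at most `r e / τ`, where `e < r + 1` for `κ ≥ 0` is
explicit, all these numbers satisfy the inequality with `degree - κ - ε` instead of `degree - ε`;
`κ = 2` gives the inequality of the question.
-/

set_option autoImplicit false

namespace Pool.Agent.Results.MP_44a246_nt.AlgebraicNearGenericNumbers

open Polynomial IntermediateField IsDedekindDomain NumberField MeasureTheory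
open UniformCurves (height coord truncated logDisc degree alpha exponent Numbers)

/-- A curve `Y` with a map `t` to the line (given by the Dedekind domain `A ⊇ ℚ[t]`), a divisor `D`
with the parts `D_j : y_{j 1} = ⋯ = y_{j u_j} = 0` over the `a_j`, and ideals `E_j ≠ 0` such that
`D_j` and the zeros of `E_j` together contain the fibre over `a_j`. -/
structure Curve (q : ℕ) (a : Fin q → ℚ) where
  A : Type
  [ring : CommRing A]
  [dedekind : IsDedekindDomain A]
  [algebra : Algebra ℚ A]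
  [algebraX : Algebra ℚ[X] A]
  [tower : IsScalarTower ℚ ℚ[X] A]
  [finite : Module.Finite ℚ[X] A]
  [faithful : FaithfulSMul ℚ[X] A]
  u : Fin q → ℕ
  y : ∀ j, Fin (u j) → A
  E : Fin q → Ideal A
  ne_bot : ∀ j, E j ≠ ⊥
  cover : ∀ j i, ∀ e ∈ E j,
    y j i * e ∈ (Ideal.span {coord A - algebraMap ℚ[X] A (C (a j))}).radical

attribute [instance] Curve.ring Curve.dedekind Curve.algebra Curve.algebraX Curve.tower
  Curve.finite Curve.faithful

/-- There is a constant `C₀` such that all algebraic numbers `x` of degree `r` (with irreducible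
integral polynomial `f`, height `h(x) = height f`) with `dist (c x, ξ) ≤ M exp (- τ h(x))`, all points
`P = φ` of `Y` above `x`, all number fields `L` over which `P` is defined and all finite sets `S` of
primes satisfy `(degree - κ) h(x) ≤ N_S^{(1)}(D, P) + d(L) + ∑_{p ∈ S} log p + C₀`. -/
def Holds {T : Type} [MetricSpace T] (c : ℂ → T) (ξ : T) (r : ℕ) (M τ : ℝ) {q : ℕ} {a : Fin q → ℚ}
    (Y : Curve q a) (κ : ℝ) : Prop :=
  ∃ C₀ : ℝ, ∀ (x : ℂ) (f : ℤ[X]), Irreducible f → f.natDegree = r → aeval x f = 0 →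
    dist (c x) ξ ≤ M * Real.exp (-(τ * height f)) →
    ∀ (L : IntermediateField ℚ ℂ) [NumberField L] (φ : Y.A →+* L), (φ (coord Y.A) : ℂ) = x →
    ∀ S : Finset ℕ, (∀ p ∈ S, p.Prime) →
      (degree Y.E - κ) * height f ≤
        truncated S a Y.u Y.y L φ + logDisc L + ∑ p ∈ S, Real.log p + C₀

lemma height_eq (f : ℤ[X]) : height f = Pool.Agent.W223.AC.MR.height f := rfl

lemma height_unique {x : ℂ} {f g : ℤ[X]} (hf : Irreducible f) (hg : Irreducible g)
    (hfd : 0 < f.natDegree) (hgd : 0 < g.natDegree) (hfx : aeval x f = 0) (hgx : aeval x g = 0) :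
    height f = height g :=
  Pool.Agent.R337.UE.height_unique hf hg hfd hgd hfx hgx

lemma height_nonneg {f : ℤ[X]} (hf : f ≠ 0) : 0 ≤ height f :=
  Pool.Agent.R337.UE.height_nonneg hf

lemma logDisc_nonneg (L : IntermediateField ℚ ℂ) [NumberField L] : 0 ≤ logDisc L := by
  unfold logDisc
  refine div_nonneg (Real.log_nonneg ?_) (Nat.cast_nonneg _)
  have h := Int.one_le_abs (NumberField.discr_ne_zero L)
  exact_mod_cast h

open Classical in
lemma truncated_nonneg {A : Type} [CommRing A] [Algebra ℚ[X] A] {q : ℕ} (S : Finset ℕ)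
    (a : Fin q → ℚ) (u : Fin q → ℕ) (y : ∀ j, Fin (u j) → A)
    (L : IntermediateField ℚ ℂ) [NumberField L] (φ : A →+* L) : 0 ≤ truncated S a u y L φ := by
  unfold truncated
  refine div_nonneg (finsum_nonneg fun v => ?_) (Nat.cast_nonneg _)
  split_ifs
  · exact Real.log_natCast_nonneg _
  · exact le_rfl

lemma logs_nonneg {S : Finset ℕ} : 0 ≤ ∑ p ∈ S, Real.log (p : ℝ) :=
  Finset.sum_nonneg fun p _ => Real.log_natCast_nonneg p

/-- the algebraic numbers of degree `r` -/
abbrev Alg (r : ℕ) : Type := {x : ℂ // ∃ f : ℤ[X], Irreducible f ∧ f.natDegree = r ∧ aeval x f = 0}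

instance (r : ℕ) : Countable (Alg r) := by
  have h : {x : ℂ | IsAlgebraic ℤ x}.Countable := Algebraic.countable ℤ ℂ
  have h1 : {x : ℂ | ∃ f : ℤ[X], Irreducible f ∧ f.natDegree = r ∧ aeval x f = 0}.Countable :=
    h.mono fun x hx => by
      obtain ⟨f, hf, -, hfx⟩ := hx
      exact ⟨f, hf.ne_zero, hfx⟩
  exact h1.to_subtype

/-- **the dimension bound** -/
theorem dim_bound {η : ℝ} (hη : 0 < η) : ∃ c₀ : ℝ, 1 ≤ c₀ ∧
    ∀ q : ℕ, 3 ≤ q → ∀ a : Fin q → ℚ, Function.Injective a → ∀ κ : ℝ, κ ≤ q → ∀ r : ℕ, 2 ≤ r →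
      (0 ≤ κ → exponent (alpha r c₀ η) r q κ < r + 1) ∧
      ∀ (T : Type) [MetricSpace T] (c : ℂ → T) (τ : ℝ), 0 < τ →
        ∃ Ex : Set T,
          dimH Ex ≤ ENNReal.ofReal (r * max (exponent (alpha r c₀ η) r q κ) 0 / τ) ∧
          ∀ ξ : T, ξ ∉ Ex → ∀ (Y : Curve q a) (ε : ℝ), 0 < ε → ∀ M : ℝ,
            Holds c ξ r M τ Y (κ + ε) := by
  obtain ⟨c₀, hc₀, h⟩ := UniformCurves.result η hη
  refine ⟨c₀, hc₀, fun q hq a ha κ hκ r hr => ?_⟩
  obtain ⟨Z, hZ, hmain⟩ := h q hq a ha κ hκ
  obtain ⟨hexp, hcount⟩ := hZ r hr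
  refine ⟨hexp, fun T _ c τ hτ => ?_⟩
  obtain ⟨e, he⟩ : ∃ e : ℝ, e = exponent (alpha r c₀ η) r q κ := ⟨_, rfl⟩
  rw [← he] at hcount ⊢
  have hr0 : (0 : ℝ) < r := by exact_mod_cast (by omega : 0 < r)
  have hs : 0 ≤ (r : ℝ) * max e 0 := mul_nonneg hr0.le (le_max_right _ _)
  have hHt : ∀ i : Alg r, 1 ≤ Real.exp (height i.2.choose) := fun i =>
    Real.one_le_exp (height_nonneg i.2.choose_spec.1.ne_zero)
  obtain ⟨Ex, hdim, hEx⟩ := Pool.Agent.R559.NP.near_dim (T := Alg r) (X := T)
    (H := fun i => Real.exp (height i.2.choose)) hHt (Bad := fun i => i.1 ∈ Z)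
    (s := (r : ℝ) * max e 0) (τ := τ) hs hτ (by
      intro δ hδ
      obtain ⟨C₁, hC₁⟩ := hcount δ hδ
      refine ⟨max C₁ 0, fun B hB => ?_⟩
      have hB0 : 0 < B := by linarith
      obtain ⟨h1, h2⟩ := hC₁ B hB
      have hsub : Subtype.val '' {i : Alg r | i.1 ∈ Z ∧ Real.exp (height i.2.choose) ≤ B} ⊆
          Z ∩ Numbers r B := by
        rintro x ⟨i, ⟨h3, h4⟩, rfl⟩
        refine ⟨h3, i.2.choose, i.2.choose_spec.1, i.2.choose_spec.2.1, i.2.choose_spec.2.2, ?_⟩
        rw [Real.le_log_iff_exp_le hB0]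
        exact h4
      have hinj : Set.InjOn Subtype.val
          {i : Alg r | i.1 ∈ Z ∧ Real.exp (height i.2.choose) ≤ B} := Subtype.val_injective.injOn
      refine ⟨Set.Finite.of_finite_image (h1.subset hsub) hinj, ?_⟩
      rw [← hinj.ncard_image]
      have h5 : ((Subtype.val '' {i : Alg r | i.1 ∈ Z ∧
          Real.exp (height i.2.choose) ≤ B}).ncard : ℝ) ≤ ((Z ∩ Numbers r B).ncard : ℝ) := by
        exact_mod_cast Set.ncard_le_ncard hsub h1
      refine h5.trans (h2.trans ?_)
      calc C₁ * B ^ ((r : ℝ) * e + δ) ≤ max C₁ 0 * B ^ ((r : ℝ) * e + δ) :=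
            mul_le_mul_of_nonneg_right (le_max_left _ _) (Real.rpow_nonneg hB0.le _)
        _ ≤ max C₁ 0 * B ^ ((r : ℝ) * max e 0 + δ) := by
            refine mul_le_mul_of_nonneg_left ?_ (le_max_right _ _)
            refine Real.rpow_le_rpow_of_exponent_le hB ?_
            have := mul_le_mul_of_nonneg_left (le_max_left e 0) hr0.le
            linarith) (fun i => c i.1)
  refine ⟨Ex, hdim, fun ξ hξ Y ε hε M => ?_⟩
  have hfin := hEx ξ hξ M
  obtain ⟨C₁, hC₁⟩ := hmain Y.A Y.u Y.y Y.E Y.ne_bot Y.cover ε hε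
  obtain ⟨d, hd⟩ : ∃ d : ℝ, d = degree Y.E - (κ + ε) := ⟨_, rfl⟩
  refine ⟨|C₁| + ∑ i ∈ hfin.toFinset, |d| * height i.2.choose, ?_⟩
  have hsum : 0 ≤ ∑ i ∈ hfin.toFinset, |d| * height i.2.choose :=
    Finset.sum_nonneg fun i _ =>
      mul_nonneg (abs_nonneg _) (height_nonneg i.2.choose_spec.1.ne_zero)
  intro x f hf hfr hfx hdist L _ φ hφ S hS
  rw [← hd]
  by_cases hxZ : x ∈ Z
  · have hi : ∃ f : ℤ[X], Irreducible f ∧ f.natDegree = r ∧ aeval x f = 0 := ⟨f, hf, hfr, hfx⟩
    have hh : height f = height hi.choose :=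
      height_unique hf hi.choose_spec.1 (by omega) (by rw [hi.choose_spec.2.1]; omega) hfx
        hi.choose_spec.2.2
    have hmem : (⟨x, hi⟩ : Alg r) ∈ hfin.toFinset := by
      rw [Set.Finite.mem_toFinset]
      refine ⟨?_, hxZ⟩
      show dist (c x) ξ ≤ M * Real.exp (height hi.choose) ^ (-τ)
      rw [← hh, ← Real.exp_mul]
      refine hdist.trans (le_of_eq ?_)
      congr 2
      ring
    have h1 := Finset.single_le_sum (f := fun i : Alg r => |d| * height i.2.choose)
      (fun i _ => mul_nonneg (abs_nonneg _) (height_nonneg i.2.choose_spec.1.ne_zero)) hmem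
    simp only at h1
    have h2 : d * height f ≤ |d| * height f :=
      mul_le_mul_of_nonneg_right (le_abs_self d) (height_nonneg hf.ne_zero)
    rw [← hh] at h1
    have h3 := truncated_nonneg S a Y.u Y.y L φ
    have h4 := logDisc_nonneg L
    have h5 := logs_nonneg (S := S)
    have h6 := abs_nonneg C₁
    linarith
  · have h1 := hC₁ x hxZ f hf (by omega) hfx L φ hφ S hS
    have h2 : degree Y.E - κ - ε = d := by rw [hd]; ring
    rw [h2] at h1
    have h3 := le_abs_self C₁
    linarith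

/-- monotonicity in the metric data -/
lemma Holds.mono {T T' : Type} [MetricSpace T] [MetricSpace T'] {c : ℂ → T} {c' : ℂ → T'} {ξ : T}
    {ξ' : T'} {r : ℕ} {M τ : ℝ} {q : ℕ} {a : Fin q → ℚ} {Y : Curve q a} {κ : ℝ}
    (hd : ∀ x : ℂ, dist (c x) ξ ≤ dist (c' x) ξ') (h : Holds c ξ r M τ Y κ) :
    Holds c' ξ' r M τ Y κ := by
  obtain ⟨C₀, h⟩ := h
  exact ⟨C₀, fun x f hf hfr hfx hdist => h x f hf hfr hfx ((hd x).trans hdist)⟩

/-- **the statement almost everywhere** -/
theorem ae_all (T : Type) [MetricSpace T] (c : ℂ → T) (s : ℝ) (hs : 0 < s) [MeasurableSpace T]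
    (μ : Measure T) (hμ : ∀ E : Set T, dimH E < ENNReal.ofReal s → μ E = 0) :
    ∀ᵐ ξ ∂μ, ∀ r : ℕ, 2 ≤ r → ∀ q : ℕ, 3 ≤ q → ∀ a : Fin q → ℚ, Function.Injective a →
      ∀ (Y : Curve q a) (ε : ℝ), 0 < ε → ∀ M : ℝ, Holds c ξ r M (r * (r + 1) / s) Y ε := by
  obtain ⟨c₀, hc₀, h⟩ := dim_bound (η := 1) one_pos
  rw [ae_all_iff]
  intro r
  by_cases hr : 2 ≤ r
  swap
  · exact Filter.Eventually.of_forall fun ξ hr' => absurd hr' hr
  have hr0 : (0 : ℝ) < r := by exact_mod_cast (by omega : 0 < r)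
  have key : ∀ q : ℕ, ∀ᵐ ξ ∂μ, 3 ≤ q → ∀ a : Fin q → ℚ, Function.Injective a →
      ∀ (Y : Curve q a) (ε : ℝ), 0 < ε → ∀ M : ℝ, Holds c ξ r M (r * (r + 1) / s) Y ε := by
    intro q
    by_cases hq : 3 ≤ q
    swap
    · exact Filter.Eventually.of_forall fun ξ hq' => absurd hq' hq
    have key2 : ∀ a : Fin q → ℚ, ∀ᵐ ξ ∂μ, Function.Injective a →
        ∀ (Y : Curve q a) (ε : ℝ), 0 < ε → ∀ M : ℝ, Holds c ξ r M (r * (r + 1) / s) Y ε := by
      intro a
      by_cases ha : Function.Injective a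
      swap
      · exact Filter.Eventually.of_forall fun ξ ha' => absurd ha' ha
      obtain ⟨h1, h2⟩ := h q hq a ha 0 (Nat.cast_nonneg q) r hr
      obtain ⟨Ex, hdim, hEx⟩ := h2 T c (r * (r + 1) / s) (by positivity)
      have h3 : dimH Ex < ENNReal.ofReal s := by
        refine hdim.trans_lt ?_
        rw [ENNReal.ofReal_lt_ofReal_iff hs, div_lt_iff₀ (by positivity)]
        have h4 : max (exponent (alpha r c₀ 1) r q 0) 0 < (r : ℝ) + 1 :=
          max_lt (h1 le_rfl) (by positivity)
        have h5 : s * ((r : ℝ) * (r + 1) / s) = r * (r + 1) := by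
          field_simp
        rw [h5]
        exact mul_lt_mul_of_pos_left h4 hr0
      have h4 := hμ Ex h3
      rw [measure_eq_zero_iff_ae_notMem] at h4
      filter_upwards [h4] with ξ hξ _ Y ε hε M
      have h5 := hEx ξ hξ Y ε hε M
      rwa [zero_add] at h5
    filter_upwards [ae_all_iff.2 key2] with ξ hξ _ a
    exact hξ a
  filter_upwards [ae_all_iff.2 key] with ξ hξ _ q
  exact hξ q

/-- **Theorem.** (1) Let `η > 0`. There is `c₀ ≥ 1` such that the following holds for all `q ≥ 3`,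
distinct rational numbers `a_1, …, a_q`, `κ ≤ q` and `r ≥ 2`, with
`e = exponent (alpha r c₀ η) r q κ`, which is smaller than `r + 1` for `κ ≥ 0`. Let `c` be any map of
`ℂ` (of the algebraic numbers) to a metric space `T` and `τ > 0`. For all `ξ ∈ T` outside ONE set of
Hausdorff dimension at most `r max(e, 0) / τ`, for ALL curves `Y` with maps `t` and divisors `D`, all
`ε > 0` and all `M` there is a constant `C₀` such that ALL algebraic numbers `x` of degree `r` with
`dist (c x, ξ) ≤ M H(x) ^ (-τ)`, all points `P` of `Y` above `x`, over any number field `L`, and all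
finite sets `S` of primes satisfy
`(degree - κ - ε) h(x) ≤ N_S^{(1)}(D, P) + d(L) + ∑_{p ∈ S} log p + C₀`.

(2) Let `μ` be a measure on `T` which vanishes on all sets of dimension less than `s > 0`. For
`μ`-almost all `ξ`, for ALL `r ≥ 2`, `q ≥ 3`, `a_j`, `Y`, `t`, `D`, `ε > 0` and `M` this holds with
`κ = 0` and `τ = r (r + 1) / s`.

(3) For almost all real `ξ` and ALL `r`, `q`, `a_j`, `Y`, `t`, `D`, `ε > 0`, `M` there is `C₀` such
that ALL algebraic numbers `x` of degree `r` with `|x - ξ| ≤ M H(x) ^ (-r (r + 1))` and all `P`, `L`,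
`S` satisfy `(degree - ε) h(x) ≤ N_S^{(1)}(D, P) + d(L) + ∑_{p ∈ S} log p + C₀`.

(4) For almost all complex `ξ` the same holds with `|x - ξ| ≤ M H(x) ^ (-r (r + 1) / 2)`. -/
theorem result :
    (∀ η : ℝ, 0 < η → ∃ c₀ : ℝ, 1 ≤ c₀ ∧
      ∀ q : ℕ, 3 ≤ q → ∀ a : Fin q → ℚ, Function.Injective a → ∀ κ : ℝ, κ ≤ q → ∀ r : ℕ, 2 ≤ r →
        (0 ≤ κ → exponent (alpha r c₀ η) r q κ < r + 1) ∧
        ∀ (T : Type) [MetricSpace T] (c : ℂ → T) (τ : ℝ), 0 < τ →
          ∃ Ex : Set T,
            dimH Ex ≤ ENNReal.ofReal (r * max (exponent (alpha r c₀ η) r q κ) 0 / τ) ∧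
            ∀ ξ : T, ξ ∉ Ex → ∀ (Y : Curve q a) (ε : ℝ), 0 < ε → ∀ M : ℝ,
              Holds c ξ r M τ Y (κ + ε)) ∧
    (∀ (T : Type) [MetricSpace T] (c : ℂ → T) (s : ℝ), 0 < s → ∀ [MeasurableSpace T]
      (μ : Measure T), (∀ E : Set T, dimH E < ENNReal.ofReal s → μ E = 0) →
      ∀ᵐ ξ ∂μ, ∀ r : ℕ, 2 ≤ r → ∀ q : ℕ, 3 ≤ q → ∀ a : Fin q → ℚ, Function.Injective a →
        ∀ (Y : Curve q a) (ε : ℝ), 0 < ε → ∀ M : ℝ, Holds c ξ r M (r * (r + 1) / s) Y ε) ∧
    (∀ᵐ ξ : ℝ, ∀ r : ℕ, 2 ≤ r → ∀ q : ℕ, 3 ≤ q → ∀ a : Fin q → ℚ, Function.Injective a →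
      ∀ (Y : Curve q a) (ε : ℝ), 0 < ε → ∀ M : ℝ, Holds id (ξ : ℂ) r M (r * (r + 1)) Y ε) ∧
    ∀ᵐ ξ : ℂ, ∀ r : ℕ, 2 ≤ r → ∀ q : ℕ, 3 ≤ q → ∀ a : Fin q → ℚ, Function.Injective a →
      ∀ (Y : Curve q a) (ε : ℝ), 0 < ε → ∀ M : ℝ, Holds id ξ r M (r * (r + 1) / 2) Y ε := by
  refine ⟨fun η hη => dim_bound hη, fun T _ c s hs _ μ hμ => ae_all T c s hs μ hμ, ?_, ?_⟩
  · have h1 : ∀ E : Set ℝ, dimH E < ENNReal.ofReal 1 → volume E = 0 := by
      intro E hE
      have h2 : dimH E < ((1 : NNReal) : ENNReal) := by simpa using hE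
      have h3 := hausdorffMeasure_of_dimH_lt h2
      rw [NNReal.coe_one, hausdorffMeasure_real] at h3
      exact h3
    filter_upwards [ae_all ℝ Complex.re 1 one_pos volume h1] with ξ hξ r hr q hq a ha Y ε hε M
    have h2 := hξ r hr q hq a ha Y ε hε M
    rw [div_one] at h2
    refine h2.mono fun x => ?_
    rw [Real.dist_eq, id, dist_eq_norm]
    have h3 := Complex.abs_re_le_norm (x - ξ)
    rwa [Complex.sub_re, Complex.ofReal_re] at h3
  · have h1 : ∀ E : Set ℂ, dimH E < ENNReal.ofReal 2 → volume E = 0 := by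
      intro E hE
      have h2 : dimH E < ((2 : NNReal) : ENNReal) := by simpa using hE
      have h3 := hausdorffMeasure_of_dimH_lt h2
      have h4 : (Module.finrank ℝ ℂ : ℝ) = ((2 : NNReal) : ℝ) := by
        rw [Complex.finrank_real_complex]
        norm_num
      rw [← h4] at h3
      exact (MeasureTheory.Measure.absolutelyContinuous_isAddHaarMeasure _ _) h3
    exact ae_all ℂ id 2 two_pos volume h1

end Pool.Agent.Results.MP_44a246_nt.AlgebraicNearGenericNumbers
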