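import Pool.Agent.Helper41x.Gq.All

/-!
# The number of the exceptional points in the truncated Vojta inequality on the line: the second
# order asymptotic law

Let `K` be a number field, `S` a finite set of primes of `K`, `D = [a_1] + … + [a_q]` a reduced
divisor on `ℙ¹` with `q ≥ 3` points `a_i ∈ ℙ¹(K)`, `h` the height relative to `K` and `N(P)` the
truncated counting function `N_S^{(1)}(D, P)`; here `h_{K_X + D} = (q - 2) h`. For `θ > 0` we count
the points `P ∈ ℙ¹(K)` off `D` with

`N(P) ≤ (q - θ) h(P) + c = h_{K_X + D}(P) + (2 - θ) h(P) + c`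

ordered by the truncated counting function: there are only finitely many of them with
`N(P) ≤ log X`, and their number is

`X ^ ((2 - θ) / (q - θ)) exp ((√(8 q θ / (q - θ)) + o(1)) √(log X / log log X))`

for every constant `c`: (1) if only the points of height `h(P) ≤ A log X` are counted, where
`1 / (q - θ) < A < 1 / (q - θ₁)` and `θ < θ₁`, with `θ₁ = 1` for `q = 3` and `θ₁ = 6 / 7` for `q ≥ 4`;
(2) if the points of all heights are counted, for all sufficiently small `θ > 0`.

Neither the exponent nor the constant in the second order term depends on `K`, `S`, the points `a_i`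
or `c`.

Upper bound: windows of heights and `Pool.Agent.N362.QP.upu` (the uniform second order bound for the
number of the points of given height with small truncated counting function); for the points of
large height `Pool.Agent.Y728.AK.line_exc`. Lower bound: `Pool.Agent.N432.QP.loj`.
-/

set_option autoImplicit false

namespace Pool.Agent.Results.MP_44a246_nt.ExceptionalPointsLaw

open NumberField IsDedekindDomain Filter Topology

section defs

variable {K : Type} [Field K] [NumberField K]

/-- the linear form vanishing at the point `(a 0 : a 1)` -/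
def form (a x : Fin 2 → K) : K := a 0 * x 1 - a 1 * x 0

/-- the local height (Weil function) of `(x 0 : x 1)` relative to the point `(a 0 : a 1)` at the
prime `v` -/
noncomputable def localHeight (v : HeightOneSpectrum (𝓞 K)) (a x : Fin 2 → K) : ℝ :=
  Real.log (max (FinitePlace.mk v (a 0)) (FinitePlace.mk v (a 1)) *
    max (FinitePlace.mk v (x 0)) (FinitePlace.mk v (x 1)) / FinitePlace.mk v (form a x))

/-- the truncated counting function relative to `D = [a 0] + ... + [a (q - 1)]`: the sum of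
`log N(v)` over the primes `v` outside `S` where the local height of `P` relative to `D` is
positive -/
noncomputable def counting (S : Set (HeightOneSpectrum (𝓞 K))) {q : ℕ} (a : Fin q → Fin 2 → K)
    (P : Projectivization K (Fin 2 → K)) : ℝ :=
  ∑ᶠ v ∈ {v : HeightOneSpectrum (𝓞 K) | v ∉ S ∧ 0 < ∑ i, localHeight v (a i) P.rep},
    Real.log (Ideal.absNorm v.asIdeal : ℝ)

/-- the points `P` off `D` with `N_S^{(1)}(D, P) ≤ log X` and
`N_S^{(1)}(D, P) ≤ (q - θ) h(P) + c` -/
def exceptional (S : Set (HeightOneSpectrum (𝓞 K))) {q : ℕ} (a : Fin q → Fin 2 → K)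
    (θ c X : ℝ) : Set (Projectivization K (Fin 2 → K)) :=
  {P | (∀ i, form (a i) P.rep ≠ 0) ∧ counting S a P ≤ Real.log X ∧
    counting S a P ≤ (q - θ) * P.logHeight + c}

end defs

/-- `n X = X ^ ((2 - θ) / (q - θ)) exp ((√(8 q θ / (q - θ)) + o(1)) √(log X / log log X))` -/
def Law (q : ℕ) (θ : ℝ) (n : ℝ → ℕ) : Prop :=
  Tendsto (fun X : ℝ => (Real.log (n X : ℝ) - (2 - θ) / (q - θ) * Real.log X) /
    √(Real.log X / Real.log (Real.log X))) atTop (𝓝 √(8 * q * θ / (q - θ)))

/-- `θ₁` -/
noncomputable def bound (q : ℕ) : ℝ := if q = 3 then 1 else 6 / 7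

/-- **The law.** -/
theorem result (K : Type) [Field K] [NumberField K] (S : Set (HeightOneSpectrum (𝓞 K)))
    (hS : S.Finite) (q : ℕ) (hq : 3 ≤ q) (a : Fin q → Fin 2 → K)
    (ha : ∀ i j, i ≠ j → form (a i) (a j) ≠ 0) :
    (∀ θ c X : ℝ, (exceptional S a θ c X).Finite) ∧
    (∀ θ A c : ℝ, 0 < θ → θ < bound q → 1 / (q - θ) < A → A < 1 / (q - bound q) →
      Law q θ fun X => {P | P ∈ exceptional S a θ c X ∧ P.logHeight ≤ A * Real.log X}.ncard) ∧
    ∃ θ₀ : ℝ, 0 < θ₀ ∧ ∀ θ c : ℝ, 0 < θ → θ < θ₀ →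
      Law q θ fun X => (exceptional S a θ c X).ncard := by
  have hq3 : (3 : ℝ) ≤ q := by exact_mod_cast hq
  have hq0 : (0 : ℝ) < q := by linarith
  have hl : ∀ P : Projectivization K (Fin 2 → K), P.logHeight = Height.logHeight P.rep := by
    intro P
    conv_lhs => rw [← P.mk_rep]
    rw [Projectivization.logHeight_mk]
  have hb1 : bound q ≤ 1 := by
    unfold bound
    split_ifs <;> norm_num
  have e1 : ∀ θ c X : ℝ, θ < q → exceptional S a θ c X =
      Pool.Agent.Helper41x.Gq.Vy S a (1 / (q - θ)) (1 / (q - θ) * c) (Real.log X) := by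
    intro θ c X hθ
    have h0 : 0 < (q : ℝ) - θ := by linarith
    ext P
    have e : counting S a P ≤ (q - θ) * P.logHeight + c ↔
        1 / (q - θ) * Pool.Agent.TH876.KR.counting S a P.rep ≤
          Height.logHeight P.rep + 1 / (q - θ) * c := by
      rw [hl, ← mul_le_mul_iff_right₀ (one_div_pos.2 h0), mul_add, ← mul_assoc (1 / (q - θ)),
        one_div_mul_cancel h0.ne', one_mul]
      rfl
    exact ⟨fun h => ⟨h.1, h.2.1, e.1 h.2.2⟩, fun h => ⟨h.1, h.2.1, e.2 h.2.2⟩⟩
  have e2 : ∀ θ A c X : ℝ, θ < q → {P | P ∈ exceptional S a θ c X ∧ P.logHeight ≤ A * Real.log X} =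
      Pool.Agent.Helper41x.Gq.Vh S a (1 / (q - θ)) (1 / (q - θ) * c) (Real.log X)
        (A * Real.log X) := by
    intro θ A c X hθ
    ext P
    rw [Set.mem_setOf_eq, e1 θ c X hθ, hl]
    rfl
  have e3 : ∀ θ : ℝ, θ < q → (1 - (q - 2) * (1 / (q - θ))) = (2 - θ) / (q - θ) := by
    intro θ hθ
    have h0 : (q : ℝ) - θ ≠ 0 := by linarith
    field_simp
    ring
  have e4 : ∀ θ : ℝ, θ < q → 8 * q * (q * (1 / (q - θ)) - 1) = 8 * q * θ / (q - θ) := by
    intro θ hθ
    have h0 : (q : ℝ) - θ ≠ 0 := by linarith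
    field_simp
    ring
  have e5 : ∀ θ : ℝ, 0 < θ → θ < q → 1 / (q : ℝ) < 1 / (q - θ) := by
    intro θ h0 h1
    exact one_div_lt_one_div_of_lt (by linarith) (by linarith)
  refine ⟨fun θ c X => ?_, fun θ A c h0 h1 h2 h3 => ?_, ?_⟩
  · refine (Pool.Agent.Helper41x.Gq.Vy_finite hq hS ha 0 0 (Real.log X)).subset fun P hP => ?_
    refine ⟨hP.1, hP.2.1, ?_⟩
    rw [zero_mul, add_zero]
    exact Height.logHeight_nonneg _
  · have hθq : θ < q := by linarith
    have hp : 0 < (q : ℝ) - bound q := by linarith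
    have h4 : A * (q - bound q) < 1 := by rwa [lt_div_iff₀ hp] at h3
    unfold Law
    simp only [e2 θ A c _ hθq]
    rw [← e3 θ hθq, ← e4 θ hθq]
    rcases eq_or_ne q 3 with h5 | h5
    · subst h5
      have h6 : bound 3 = 1 := by unfold bound; rw [if_pos rfl]
      rw [h6] at h4
      exact Pool.Agent.Helper41x.Gq.law_h hq le_rfl (Pool.Agent.N906.KG.upu_three K) hS ha _
        (e5 θ h0 hθq) h2 h4
    · have h6 : bound q = 6 / 7 := by unfold bound; rw [if_neg h5]
      rw [h6] at h4
      exact Pool.Agent.Helper41x.Gq.law_h hq (by norm_num)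
        (Pool.Agent.N906.KG.upu_all K q (by omega)) hS ha _ (e5 θ h0 hθq) h2 h4
  · obtain ⟨M₀, hM₀, hlaw⟩ := Pool.Agent.Helper41x.Gq.law_all hq hS ha
    have hM0 : 0 < M₀ := lt_trans (by positivity) hM₀
    have h1 : 1 / M₀ < q := by
      rw [div_lt_iff₀ hM0]
      rw [div_lt_iff₀ hq0] at hM₀
      linarith
    refine ⟨q - 1 / M₀, by linarith, fun θ c h0 h2 => ?_⟩
    have h3 : 0 < 1 / M₀ := by positivity
    have hθq : θ < q := by linarith
    unfold Law
    simp only [e1 θ c _ hθq]
    rw [← e3 θ hθq, ← e4 θ hθq]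
    refine hlaw _ _ (e5 θ h0 hθq) ?_
    rw [div_lt_iff₀ (by linarith)]
    have h4 : M₀ * (1 / M₀) < M₀ * (q - θ) := mul_lt_mul_of_pos_left (by linarith) hM0
    rwa [mul_one_div_cancel hM0.ne'] at h4

end Pool.Agent.Results.MP_44a246_nt.ExceptionalPointsLaw
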