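import Mathlib
import Pool.Agent.H65CV.Vn
import Pool.Agent.N395.CV.KeyB

/-!
# The truncated Vojta inequality for the closed points in the linear systems on a curve: all curves,
# all covers, all divisors, one exceptional set

Let `K` be a number field and `Y` a curve over `K`, given by a finite map to the line: `A` is a
domain, finite over `K[X]` and containing it, of rank `N`, and `Y = Spec A` is geometrically
integral. A closed point of `Y` is a maximal ideal of `A`, or a surjective homomorphism `φ : A → M`
onto a number field. Let `f_1, …, f_m` be elements of `A` which are linearly independent over `K`. We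
order the members `∑ P_i f_i` of the linear system by the height `h(P)` of the point
`P = (P_1 : … : P_m)` of the projective space over `K` (Mathlib's height, which is `[K : ℚ]` times the
absolute one). There are about `exp (m U)` points `P` with `h(P) ≤ U`, and for almost all of them
the scheme of zeros of the member is a closed point of `Y`, by Hilbert's irreducibility theorem. This
is the natural family of points of large degree `r` on a curve of any genus; for `A = K[X]` and
`f = 1, X, …, X ^ r` these are the points of degree `r` of the line.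

We prove that there is one sparse set `E` of points `P` (at most `C exp (m U - √U)` of them of height
at most `U`) outside of which the truncated counting functions of all divisors, at all closed points
which are the schemes of zeros of members, are almost as large as possible: if `D` is a sum of
closed points of `Y`, at each of which the linear system is wide (the values of the `f_i` generate
the residue field `L` of the point and span more than half of it over `K`), then
`(deg D - κ) h(P) ≤ N_S^{(1)}(D, φ) + C`.
The discriminants are large, too: `G h(P) ≤ log |disc M| + C` if `G e(r) + 2 N < m`, where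
`e(r) ≤ (1 / (8 (log 2) ^ 2) + o(1)) (log r) ^ 2`. The height of the closed point is bounded by
`h_∞(φ) ≤ N h(P) + C`, where `h_∞(φ)` is the height of the coordinate `X`, belonging to the divisor
of the poles of `X`, of degree `N`. So the height belonging to a divisor of degree `d` on the
smooth projective curve is at most `(d + ε) h(P) + C`, and for `G ≥ 2 g - 2` we obtain
`h_{K_Y + D}(φ) ≤ N_S^{(1)}(D, φ) + d(φ) + ε h(φ) + C`: this is the inequality of the conjecture,
multiplied by `[M : K]`.

Part (2) makes this explicit for the linear systems `V_n` spanned by the functions `X ^ k b_j`,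
`k ≤ n`, where `b_1, …, b_N` is any basis of `A` over `K[X]` which contains `1`: for every `G` and
all `n ≥ n₀(A, b, G)` there is one sparse set `E` such that
`(deg D + G - κ) h(P) ≤ N_S^{(1)}(D, φ) + log |disc M| + C`
for all sums `D` of different closed points of degrees at most `2 n + 1`, all finite sets `S` of
primes and all `κ > 0`. The total degree of `D` is not bounded.

The same set `E` is good for all covers `π : Y' → Y` (`A'` is a Dedekind domain, finite over `K[X]`,
and `π : A → A'`), all divisors `D'` on `Y'` and all points `φ' : A' → L` of `Y'` above the closed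
points, over all number fields `L` over which they are defined. The divisor `D'` consists of points
above the closed points `D_j` of `Y`, the ideal `F_j` describes the points of the fibre over `D_j`
which do not belong to `D'`, and
`(deg D + G - (∑_j dim (A' / F_j)) / deg π - κ) [L : M] h(P) ≤ N_S^{(1)}(D', φ') + log |disc L| +
C [L : ℚ]`.
If `π` is unramified outside the fibres over the `D_j` and `G ≥ 2 g - 2`, the factor on the left is
at least `deg (K_{Y'} + D') / deg π - κ`.

The results are new even for one divisor: the results on this problem which were known here concern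
the points over the rational points, or the points of degree `r`, of the line, with rational branch
points. Proof: the members of the linear system are treated as incomplete norm forms of the residue
fields `L` in more than `[L : K] / 2` variables. The part of the value of an incomplete norm form
which is composed of small primes with multiple zeros is rarely large (`Pool.Agent.H65CV.Small`, the
missing step `CV/SMALLB` of the unfinished project CV of the starting library); the rest of the
project (large primes, places, fields of small discriminant, linear systems) is in the library. The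
covers are treated with the library result `CV/KEYB` and the relative different.
-/

set_option autoImplicit false

namespace Pool.Agent.Results.MP_44a246_nt.LinearSystemsOnCurves

open NumberField IsDedekindDomain Module Polynomial
open scoped LinearAlgebra.Projectivization

section

variable {K A : Type} [Field K] [CommRing A] [Algebra K A]

/-- The member `∑ c_i f_i` of the linear system of functions spanned by the `f_i`. -/
def member {m : ℕ} (f : Fin m → A) (c : Fin m → K) : A := ∑ i, c i • f i

/-- The closed point `φ : A → M`, with residue field `M`, is the scheme of zeros of the member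
`∑ c_i f_i`. -/
def IsZero {M : Type} [Field M] [Algebra K M] {m : ℕ} (f : Fin m → A) (c : Fin m → K)
    (φ : A →ₐ[K] M) : Prop :=
  Function.Surjective φ ∧ RingHom.ker φ = Ideal.span {member f c}

/-- The elements `γ_i` of `L` are wide over `K`: their ratios generate the field `L`, and they span
over `K` a subspace of `L` of dimension greater than `[L : K] / 2`. -/
def Wide (K : Type) [Field K] {L : Type} [Field L] [Algebra K L] {m : ℕ} (γ : Fin m → L) : Prop :=
  (∃ i0, γ i0 ≠ 0 ∧ IntermediateField.adjoin K (Set.range fun i => γ i / γ i0) = ⊤) ∧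
    finrank K L < 2 * finrank K (Submodule.span K (Set.range γ))

/-- The linear system spanned by the `f_i` is wide at the closed point of the curve with the
equations `g_i = 0`: the values of the `f_i` at this point, elements of its residue field `L`, are
wide. -/
def WideAt {m u : ℕ} (f : Fin m → A) (g : Fin u → A) : Prop :=
  ∃ (L : Type) (_ : Field L) (_ : NumberField L) (_ : Algebra K L) (ψ : A →ₐ[K] L),
    Function.Surjective ψ ∧ RingHom.ker ψ = Ideal.span (Set.range g) ∧ Wide K (fun i => ψ (f i))

/-- Finitely many different closed points of the curve, given by their equations. -/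
def AreClosedPoints {q : ℕ} {u : Fin q → ℕ} (g : ∀ j, Fin (u j) → A) : Prop :=
  (∀ j, (Ideal.span (Set.range (g j))).IsMaximal) ∧
    ∀ i j, i ≠ j → Ideal.span (Set.range (g i)) ≠ Ideal.span (Set.range (g j))

/-- The degree over `K` of the closed point with the equations `g`. -/
noncomputable def degree (K : Type) [Field K] [Algebra K A] {u : ℕ} (g : Fin u → A) : ℕ :=
  finrank K (A ⧸ Ideal.span (Set.range g))

variable [Algebra K[X] A]

/-- The `N (n + 1)` functions `X ^ k b_j`, `k ≤ n`. -/
noncomputable def system {N : ℕ} (b : Fin N → A) (n : ℕ) (i : Fin (N * (n + 1))) : A :=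
  (X : K[X]) ^ ((finProdFinEquiv.symm i).2 : ℕ) • b (finProdFinEquiv.symm i).1

/-- On the cover `π : A → A'` the points with the equations `y` and the zeros of the ideal `F`
together contain the fibre over the point with the equations `g`. -/
def Covers {A' : Type} [CommRing A'] [Algebra K[X] A'] (π : A →ₐ[K[X]] A') {u v : ℕ}
    (g : Fin u → A) (y : Fin v → A') (F : Ideal A') : Prop :=
  ∀ i, ∀ a ∈ F, y i * a ∈ (Ideal.span (Set.range fun l => π (g l))).radical

end

section

variable {K A : Type} [Field K] [NumberField K] [CommRing A] [Algebra K A] [Algebra K[X] A]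

/-- The prime `w` of `M` is not over a prime in `S`, and modulo `w` the point `φ` (whose coordinate
`φ(X)` is integral at `w`) satisfies the equations `g`. -/
def MeetsAt {M : Type} [Field M] [NumberField M] [Algebra K M]
    (S : Finset (HeightOneSpectrum (𝓞 K))) {u : ℕ} (g : Fin u → A) (φ : A →ₐ[K] M)
    (w : HeightOneSpectrum (𝓞 M)) : Prop :=
  (∀ v ∈ S, ¬ w.asIdeal.LiesOver v.asIdeal) ∧ w.valuation M (φ (algebraMap K[X] A X)) ≤ 1 ∧
    ∀ i, w.valuation M (φ (g i)) < 1

open Classical in
/-- The truncated counting function: the sum of `log N(w)` over all primes `w` of `M` not over `S`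
at which the point `φ` meets one of the closed points with the equations `g_j`. -/
noncomputable def truncated {M : Type} [Field M] [NumberField M] [Algebra K M]
    (S : Finset (HeightOneSpectrum (𝓞 K))) {q : ℕ} {u : Fin q → ℕ} (g : ∀ j, Fin (u j) → A)
    (φ : A →ₐ[K] M) : ℝ :=
  ∑ᶠ w : HeightOneSpectrum (𝓞 M),
    if ∃ j, MeetsAt S (g j) φ w then Real.log (Ideal.absNorm w.asIdeal) else 0

open Classical in
/-- The truncated counting function on the cover `π : A → A'`: the sum of `log N(w)` over all
primes `w` of `L` not over `S` at which, for some `j`, the point `φ'` is over the point with the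
equations `g_j` and satisfies the equations `y_j`. -/
noncomputable def truncatedOver {A' : Type} [CommRing A'] [Algebra K A'] [Algebra K[X] A']
    {L : Type} [Field L] [NumberField L] [Algebra K L] (S : Finset (HeightOneSpectrum (𝓞 K)))
    (π : A →ₐ[K[X]] A') {q : ℕ} {u v : Fin q → ℕ} (g : ∀ j, Fin (u j) → A)
    (y : ∀ j, Fin (v j) → A') (φ' : A' →ₐ[K] L) : ℝ :=
  ∑ᶠ w : HeightOneSpectrum (𝓞 L),
    if ∃ j, (∀ l, w.valuation L (φ' (π (g j l))) < 1) ∧ MeetsAt S (y j) φ' w then
      Real.log (Ideal.absNorm w.asIdeal) else 0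

/-- Sparse sets of points of projective space: at most `C * exp (m U - √U)` points of height at
most `U`. -/
def Sparse {m : ℕ} (E : Set (ℙ K (Fin m → K))) : Prop :=
  ∃ C : ℝ, ∀ U : ℝ, 0 ≤ U → {P : ℙ K (Fin m → K) | P ∈ E ∧ Height.logHeight P.rep ≤ U}.Finite ∧
    ({P : ℙ K (Fin m → K) | P ∈ E ∧ Height.logHeight P.rep ≤ U}.ncard : ℝ) ≤
      C * Real.exp (m * U - √U)

/-- For all sums of closed points at which the linear system is wide, the truncated counting
function at the closed points which are the schemes of zeros of the members not in `E` is almost as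
large as possible. -/
def TruncatedBound {m : ℕ} (f : Fin m → A) (E : Set (ℙ K (Fin m → K))) : Prop :=
  ∀ (q : ℕ) (u : Fin q → ℕ) (g : ∀ j, Fin (u j) → A), AreClosedPoints g →
    (∀ j, WideAt (K := K) f (g j)) →
    ∀ (S : Finset (HeightOneSpectrum (𝓞 K))) (κ : ℝ), 0 < κ → ∃ C : ℝ,
      ∀ (M : Type) [Field M] [NumberField M] [Algebra K M] (φ : A →ₐ[K] M)
        (P : ℙ K (Fin m → K)), P ∉ E → IsZero f P.rep φ →
        (∀ j, RingHom.ker φ ≠ Ideal.span (Set.range (g j))) →
        (∑ j, (degree K (g j) : ℝ) - κ) * Height.logHeight P.rep ≤ truncated S g φ + C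

/-- The discriminants of the residue fields `M` are large. -/
def DiscriminantBound {m : ℕ} (f : Fin m → A) (E : Set (ℙ K (Fin m → K))) (G : ℝ) : Prop :=
  ∃ C : ℝ, ∀ (M : Type) [Field M] [NumberField M] [Algebra K M] (φ : A →ₐ[K] M)
    (P : ℙ K (Fin m → K)), P ∉ E → IsZero f P.rep φ →
    G * Height.logHeight P.rep ≤ Real.log |(discr M : ℝ)| + C

/-- The height of the coordinate `X` of the closed point is at most `N * h(P) + C`, where `N` is
the rank of `A` over `K[X]`. -/
def HeightBound {m : ℕ} (f : Fin m → A) : Prop :=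
  ∃ C : ℝ, ∀ (M : Type) [Field M] [NumberField M] [Algebra K M] (φ : A →ₐ[K] M)
    (P : ℙ K (Fin m → K)), IsZero f P.rep φ →
    Height.logHeight₁ (φ (algebraMap K[X] A X)) ≤ finrank K[X] A * Height.logHeight P.rep + C

/-- The bound for all covers of the curve: here `g_j`, `y_j` and `F_j` are the equations of the
closed point `D_j` of `Spec A`, the equations of the part of the fibre over `D_j` which belongs to the
divisor `D'`, and an ideal whose zeros contain the other points of the fibre. -/
def CoverBound {m : ℕ} (f : Fin m → A) (E : Set (ℙ K (Fin m → K))) : Prop :=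
  ∀ (A' : Type) [CommRing A'] [IsDedekindDomain A'] [Algebra K A'] [Algebra K[X] A']
    [IsScalarTower K K[X] A'] [Module.Finite K[X] A'] [FaithfulSMul K[X] A']
    (π : A →ₐ[K[X]] A') (q : ℕ) (u v : Fin q → ℕ) (g : ∀ j, Fin (u j) → A)
    (y : ∀ j, Fin (v j) → A') (F : Fin q → Ideal A'), AreClosedPoints g →
    (∀ j, WideAt (K := K) f (g j)) → (∀ j, F j ≠ ⊥) → (∀ j, Covers π (g j) (y j) (F j)) →
    ∀ (S : Finset (HeightOneSpectrum (𝓞 K))) (κ : ℝ), 0 < κ → ∃ C : ℝ,
      ∀ (M : Type) [Field M] [NumberField M] [Algebra K M] (φ : A →ₐ[K] M)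
        (P : ℙ K (Fin m → K)), P ∉ E → IsZero f P.rep φ →
        (∀ j, RingHom.ker φ ≠ Ideal.span (Set.range (g j))) →
        ∀ (L : Type) [Field L] [NumberField L] [Algebra K L] [Algebra M L] [IsScalarTower K M L]
          (φ' : A' →ₐ[K] L), (∀ a, φ' (π a) = algebraMap M L (φ a)) →
          (∑ j, ((degree K (g j) : ℝ) -
              finrank K[X] A * finrank K (A' ⧸ F j) / finrank K[X] A') - κ) * finrank M L *
              Height.logHeight P.rep ≤
            truncatedOver S π g y φ' +
              (Real.log |(discr L : ℝ)| - finrank M L * Real.log |(discr M : ℝ)|) +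
              C * finrank ℚ L

/-- The inequality `(deg D + G - κ) h(P) ≤ N_S^{(1)}(D, φ) + log |disc M| + C` for all sums `D` of
closed points of degrees at most `d`. -/
def VojtaBound {m : ℕ} (f : Fin m → A) (E : Set (ℙ K (Fin m → K))) (d : ℕ) (G : ℝ) : Prop :=
  ∀ (q : ℕ) (u : Fin q → ℕ) (g : ∀ j, Fin (u j) → A), AreClosedPoints g →
    (∀ j, degree K (g j) ≤ d) →
    ∀ (S : Finset (HeightOneSpectrum (𝓞 K))) (κ : ℝ), 0 < κ → ∃ C : ℝ,
      ∀ (M : Type) [Field M] [NumberField M] [Algebra K M] (φ : A →ₐ[K] M)
        (P : ℙ K (Fin m → K)), P ∉ E → IsZero f P.rep φ →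
        (∀ j, RingHom.ker φ ≠ Ideal.span (Set.range (g j))) →
        (∑ j, (degree K (g j) : ℝ) + G - κ) * Height.logHeight P.rep ≤
          truncated S g φ + Real.log |(discr M : ℝ)| + C

/-- The inequality for all covers of the curve. -/
def VojtaCoverBound {m : ℕ} (f : Fin m → A) (E : Set (ℙ K (Fin m → K))) (d : ℕ) (G : ℝ) : Prop :=
  ∀ (A' : Type) [CommRing A'] [IsDedekindDomain A'] [Algebra K A'] [Algebra K[X] A']
    [IsScalarTower K K[X] A'] [Module.Finite K[X] A'] [FaithfulSMul K[X] A']
    (π : A →ₐ[K[X]] A') (q : ℕ) (u v : Fin q → ℕ) (g : ∀ j, Fin (u j) → A)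
    (y : ∀ j, Fin (v j) → A') (F : Fin q → Ideal A'), AreClosedPoints g →
    (∀ j, degree K (g j) ≤ d) → (∀ j, F j ≠ ⊥) → (∀ j, Covers π (g j) (y j) (F j)) →
    ∀ (S : Finset (HeightOneSpectrum (𝓞 K))) (κ : ℝ), 0 < κ → ∃ C : ℝ,
      ∀ (M : Type) [Field M] [NumberField M] [Algebra K M] (φ : A →ₐ[K] M)
        (P : ℙ K (Fin m → K)), P ∉ E → IsZero f P.rep φ →
        (∀ j, RingHom.ker φ ≠ Ideal.span (Set.range (g j))) →
        ∀ (L : Type) [Field L] [NumberField L] [Algebra K L] [Algebra M L] [IsScalarTower K M L]
          (φ' : A' →ₐ[K] L), (∀ a, φ' (π a) = algebraMap M L (φ a)) →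
          (∑ j, ((degree K (g j) : ℝ) -
              finrank K[X] A * finrank K (A' ⧸ F j) / finrank K[X] A') + G - κ) * finrank M L *
              Height.logHeight P.rep ≤
            truncatedOver S π g y φ' + Real.log |(discr L : ℝ)| + C * finrank ℚ L

end

section

variable {K A : Type} [Field K] [CommRing A] [Algebra K A] {M : Type} [Field M]

theorem exists_ne [Algebra K M] {q : ℕ} {u : Fin q → ℕ} {g : ∀ j, Fin (u j) → A} {φ : A →ₐ[K] M}
    (h1 : ∀ j, (Ideal.span (Set.range (g j))).IsMaximal)
    (h2 : ∀ j, RingHom.ker φ ≠ Ideal.span (Set.range (g j))) (j : Fin q) :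
    ∃ i, φ (g j i) ≠ 0 := by
  by_contra hc
  push Not at hc
  apply h2 j
  refine ((h1 j).eq_of_le (RingHom.ker_ne_top φ) ?_).symm
  rw [Ideal.span_le]
  rintro _ ⟨i, rfl⟩
  exact hc i

theorem le_finsum [NumberField M] {p : HeightOneSpectrum (𝓞 M) → Prop} [DecidablePred p] (hfin : {w | p w}.Finite)
    (W : Finset (HeightOneSpectrum (𝓞 M))) (hW : ∀ w ∈ W, p w) :
    ∑ w ∈ W, Pool.Agent.N753.DR.lN w ≤ ∑ᶠ w : HeightOneSpectrum (𝓞 M),
      if p w then Real.log (Ideal.absNorm w.asIdeal) else 0 := by
  have hnn : ∀ w : HeightOneSpectrum (𝓞 M), (0 : ℝ) ≤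
      if p w then Real.log (Ideal.absNorm w.asIdeal) else 0 := by
    intro w
    split_ifs
    · exact Real.log_natCast_nonneg _
    · exact le_rfl
  rw [finsum_eq_sum_of_support_subset (s := hfin.toFinset) _ (by
    intro w hw
    rw [Function.mem_support] at hw
    rw [Set.Finite.coe_toFinset]
    by_contra hc
    exact hw (if_neg hc))]
  calc ∑ w ∈ W, Pool.Agent.N753.DR.lN w = ∑ w ∈ W,
        (if p w then Real.log (Ideal.absNorm w.asIdeal) else 0) := by
        refine Finset.sum_congr rfl fun w hw => ?_
        rw [if_pos (hW w hw)]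
        rfl
    _ ≤ _ := Finset.sum_le_sum_of_subset_of_nonneg (fun w hw => by
        rw [Set.Finite.mem_toFinset]
        exact hW w hw) fun w _ _ => hnn w

end

section

variable {K A : Type} [Field K] [NumberField K] [CommRing A] [Algebra K A] [Algebra K[X] A]

/-- the rational primes below `S` -/
noncomputable def below (S : Finset (HeightOneSpectrum (𝓞 K))) : Finset ℕ :=
  S.image Pool.Agent.H65CV.Small.pv

theorem near_meets {M : Type} [Field M] [NumberField M] [Algebra K M]
    {S : Finset (HeightOneSpectrum (𝓞 K))} {u : ℕ} {g : Fin u → A}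
    {φ : A →ₐ[K] M} {w : HeightOneSpectrum (𝓞 M)}
    (h : Pool.Agent.N753.DR.NearC (below S) g φ w) : MeetsAt S g φ w := by
  refine ⟨fun v hv hw => ?_, h.2⟩
  have h1 := Pool.Agent.H65CV.Small.pv_mem v
  refine h.1 (Pool.Agent.H65CV.Small.pv v) (Finset.mem_image_of_mem _ hv)
    (Pool.Agent.H65CV.Small.pv_prime v).ne_zero ?_
  exact (Pool.Agent.H65CV.Small.mem_below hw).2 h1

theorem le_truncated {M : Type} [Field M] [NumberField M] [Algebra K M]
    {S : Finset (HeightOneSpectrum (𝓞 K))} {q : ℕ} {u : Fin q → ℕ}
    {g : ∀ j, Fin (u j) → A} {φ : A →ₐ[K] M}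
    (h1 : ∀ j, (Ideal.span (Set.range (g j))).IsMaximal)
    (h2 : ∀ j, RingHom.ker φ ≠ Ideal.span (Set.range (g j)))
    (W : Finset (HeightOneSpectrum (𝓞 M)))
    (hW : ∀ w ∈ W, ∃ j, Pool.Agent.N753.DR.NearC (below S) (g j) φ w) :
    ∑ w ∈ W, Pool.Agent.N753.DR.lN w ≤ truncated S g φ := by
  classical
  unfold truncated
  refine le_finsum (p := fun w => ∃ j, MeetsAt S (g j) φ w) ?_ W
    fun w hw => (hW w hw).imp fun j hj => near_meets hj
  choose i hi using exists_ne h1 h2
  refine (Set.finite_iUnion fun j => Pool.Agent.N297.CV.MainC.val_fin (hi j)).subset ?_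
  rintro w ⟨j, hw⟩
  exact Set.mem_iUnion.2 ⟨j, hw.2.2 (i j)⟩

theorem le_truncatedOver {A' : Type} [CommRing A'] [Algebra K A'] [Algebra K[X] A']
    {M L : Type} [Field M] [NumberField M] [Algebra K M] [Field L] [NumberField L] [Algebra K L]
    [Algebra M L] {S : Finset (HeightOneSpectrum (𝓞 K))} {π : A →ₐ[K[X]] A'} {q : ℕ}
    {u v : Fin q → ℕ} {g : ∀ j, Fin (u j) → A} {y : ∀ j, Fin (v j) → A'} {φ : A →ₐ[K] M}
    {φ' : A' →ₐ[K] L} (hφ' : ∀ a, φ' (π a) = algebraMap M L (φ a))
    (h1 : ∀ j, (Ideal.span (Set.range (g j))).IsMaximal)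
    (h2 : ∀ j, RingHom.ker φ ≠ Ideal.span (Set.range (g j)))
    (W : Finset (HeightOneSpectrum (𝓞 L)))
    (hW : ∀ w ∈ W, ∃ j, (∀ l, w.valuation L (φ' (π (g j l))) < 1) ∧
      Pool.Agent.N753.DR.NearC (below S) (y j) φ' w) :
    ∑ w ∈ W, Pool.Agent.N753.DR.lN w ≤ truncatedOver S π g y φ' := by
  classical
  unfold truncatedOver
  refine le_finsum (p := fun w => ∃ j, (∀ l, w.valuation L (φ' (π (g j l))) < 1) ∧
    MeetsAt S (y j) φ' w) ?_ W fun w hw => (hW w hw).imp fun j hj => ⟨hj.1, near_meets hj.2⟩
  choose i hi using exists_ne h1 h2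
  have hi' : ∀ j, φ' (π (g j (i j))) ≠ 0 := by
    intro j
    rw [hφ']
    exact (map_ne_zero_iff _ (algebraMap M L).injective).2 (hi j)
  refine (Set.finite_iUnion fun j => Pool.Agent.N297.CV.MainC.val_fin (hi' j)).subset ?_
  rintro w ⟨j, hw, -⟩
  exact Set.mem_iUnion.2 ⟨j, hw (i j)⟩

end

/-- **The truncated Vojta inequality for the closed points in linear systems on curves.** -/
theorem result : ∃ e : ℕ → ℝ,
    (∀ c : ℝ, 1 / (8 * (Real.log 2) ^ 2) < c →
      ∀ᶠ n : ℕ in Filter.atTop, e n ≤ c * (Real.log n) ^ 2) ∧ (∀ n, 0 ≤ e n) ∧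
    ∀ (K A : Type) [Field K] [NumberField K] [CommRing A] [IsDomain A] [Algebra K A]
      [Algebra K[X] A] [IsScalarTower K K[X] A] [Module.Finite K[X] A] [FaithfulSMul K[X] A],
      IsDomain (TensorProduct K (AlgebraicClosure K) A) →
      -- (1) all linear systems
      (∀ m : ℕ, 1 ≤ m → ∀ f : Fin m → A, LinearIndependent K f →
        ∃ (r : ℕ) (E : Set (ℙ K (Fin m → K))), Sparse E ∧
          (∀ P, P ∉ E → finrank K (A ⧸ Ideal.span {member f P.rep}) = r) ∧
          TruncatedBound f E ∧ HeightBound (K := K) f ∧
          (∀ G : ℝ, 0 ≤ G → G * e r + 2 * finrank K[X] A < m → DiscriminantBound f E G) ∧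
          CoverBound f E) ∧
      -- (2) the linear systems `V_n`
      ∀ (N : ℕ) (b : Basis (Fin N) K[X] A), (∃ i, b i = 1) → ∀ G : ℝ, 0 ≤ G →
        ∃ n₀ : ℕ, ∀ n, n₀ ≤ n → ∃ E : Set (ℙ K (Fin (N * (n + 1)) → K)), Sparse E ∧
          VojtaBound (system (K := K) b n) E (2 * n + 1) G ∧
          VojtaCoverBound (system (K := K) b n) E (2 * n + 1) G := by
  classical
  obtain ⟨e, he1, he2, h⟩ := Pool.Agent.H65CV.All.all Pool.Agent.N395.CV.t
  refine ⟨e, he1, he2, ?_⟩
  intro K A _ _ _ _ _ _ _ _ _ hA
  refine ⟨?_, ?_⟩
  · intro m hm f hf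
    obtain ⟨r, E, -, hEr, hE, ht, hd, hh, hc⟩ := h K A hA m hm f hf
    refine ⟨r, E, hE, hEr, ?_, ?_, ?_, ?_⟩
    · intro q u g hg hw S κ hκ
      obtain ⟨C, hC⟩ := ht q u g hg.1 hg.2 hw (below S) κ hκ
      refine ⟨C, ?_⟩
      intro M _ _ _ φ P hP hz hne
      obtain ⟨W, hW, hb⟩ := hC M φ P hP hz.1 hz.2 hne
      have h1 := le_truncated hg.1 hne W hW
      unfold degree
      linarith
    · obtain ⟨C, hC⟩ := hh
      exact ⟨C, fun M _ _ _ φ P hz => hC M φ P hz.1 hz.2⟩
    · intro G hG hGm
      obtain ⟨C, hC⟩ := hd G hG hGm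
      exact ⟨C, fun M _ _ _ φ P hP hz => hC M φ P hP hz.1 hz.2⟩
    · intro A' _ _ _ _ _ _ _ π q u v g y F hg hw hF hcov S κ hκ
      obtain ⟨C, hC⟩ := hc A' π q u v g y F hg.1 hg.2 hw hF hcov (below S) κ hκ
      obtain ⟨C₂, hC₂⟩ := hh
      set ρ : ℝ := (∑ j, (finrank K (A' ⧸ F j) : ℝ)) / finrank K[X] A' with hρ
      have hρ0 : 0 ≤ ρ := div_nonneg (Finset.sum_nonneg fun _ _ => Nat.cast_nonneg _)
        (Nat.cast_nonneg _)
      refine ⟨C + ρ * |C₂|, ?_⟩
      intro M _ _ _ φ P hP hz hne L _ _ _ _ _ φ' hφ'
      obtain ⟨W, hW, hb⟩ := hC M φ P hP hz.1 hz.2 hne L φ' hφ'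
      have h1 := le_truncatedOver hφ' hg.1 hne W hW
      have h2 := hC₂ M φ P hz.1 hz.2
      have hLM : (finrank M L : ℝ) ≤ finrank ℚ L := by
        have h1 := finrank_mul_finrank ℚ M L
        have h2 : 0 < finrank ℚ M := finrank_pos
        have h3 : finrank M L ≤ finrank ℚ L := by
          rw [← h1]
          exact Nat.le_mul_of_pos_left _ h2
        exact_mod_cast h3
      have hLM0 : (0 : ℝ) ≤ finrank M L := Nat.cast_nonneg _
      have e1 : Height.logHeight₁ (φ' (algebraMap K[X] A' X)) =
          finrank M L * Height.logHeight₁ (φ (algebraMap K[X] A X)) := by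
        rw [show φ' (algebraMap K[X] A' X) = algebraMap M L (φ (algebraMap K[X] A X)) by
          rw [← hφ', AlgHom.commutes]]
        exact Pool.Agent.N265.CV.ht1_ext M L _
      have h4 : ρ * Height.logHeight₁ (φ' (algebraMap K[X] A' X)) ≤
          finrank K[X] A * ρ * finrank M L * Height.logHeight P.rep +
            ρ * |C₂| * finrank ℚ L := by
        rw [e1]
        calc ρ * (finrank M L * Height.logHeight₁ (φ (algebraMap K[X] A X))) ≤
              ρ * (finrank M L * (finrank K[X] A * Height.logHeight P.rep + |C₂|)) := by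
              refine mul_le_mul_of_nonneg_left (mul_le_mul_of_nonneg_left ?_ hLM0) hρ0
              exact h2.trans (by linarith [le_abs_self C₂])
          _ = finrank K[X] A * ρ * finrank M L * Height.logHeight P.rep +
                ρ * |C₂| * finrank M L := by ring
          _ ≤ _ := by
              have := mul_le_mul_of_nonneg_left hLM (by positivity : 0 ≤ ρ * |C₂|)
              linarith
      have hsum : ∑ j, ((degree K (g j) : ℝ) -
          finrank K[X] A * finrank K (A' ⧸ F j) / finrank K[X] A') =
          ∑ j, (finrank K (A ⧸ Ideal.span (Set.range (g j))) : ℝ) - finrank K[X] A * ρ := by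
        rw [Finset.sum_sub_distrib, hρ, ← Finset.sum_div, ← Finset.mul_sum, mul_div_assoc]
        rfl
      rw [hsum]
      set D : ℝ := ∑ j, (finrank K (A ⧸ Ideal.span (Set.range (g j))) : ℝ) with hD
      have h8 : (D - finrank K[X] A * ρ - κ) * finrank M L * Height.logHeight P.rep =
          (D - κ) * finrank M L * Height.logHeight P.rep -
          finrank K[X] A * ρ * finrank M L * Height.logHeight P.rep := by ring
      have h9 : (C + ρ * |C₂|) * (finrank ℚ L : ℝ) =
          C * finrank ℚ L + ρ * |C₂| * finrank ℚ L := by ring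
      rw [h8, h9]
      linarith
  · intro N b hb G hG
    obtain ⟨n₀, hn₀⟩ := Pool.Agent.H65CV.All.vn he1 he2 K A (fun m hm f hf => by
      obtain ⟨r, E, hr, -, hE, ht, hd, hh, hc⟩ := h K A hA m hm f hf
      exact ⟨r, E, hr, hE, ht, hd, hh, hc⟩) N b hb G hG
    refine ⟨n₀, fun n hn => ?_⟩
    obtain ⟨E, hE, h1, h2⟩ := hn₀ n hn
    refine ⟨E, hE, ?_, ?_⟩
    · intro q u g hg hd S κ hκ
      obtain ⟨C, hC⟩ := h1 q u g hg.1 hg.2 hd (below S) κ hκ
      refine ⟨C, ?_⟩
      intro M _ _ _ φ P hP hz hne
      obtain ⟨W, hW, hb⟩ := hC M φ P hP hz.1 hz.2 hne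
      have h3 := le_truncated hg.1 hne W hW
      unfold degree
      linarith
    · intro A' _ _ _ _ _ _ _ π q u v g y F hg hd hF hcov S κ hκ
      obtain ⟨C, hC⟩ := h2 A' π q u v g y F hg.1 hg.2 hd hF hcov (below S) κ hκ
      refine ⟨C, ?_⟩
      intro M _ _ _ φ P hP hz hne L _ _ _ _ _ φ' hφ'
      obtain ⟨W, hW, hb⟩ := hC M φ P hP hz.1 hz.2 hne L φ' hφ'
      have h3 := le_truncatedOver hφ' hg.1 hne W hW
      have hNrank : finrank K[X] A = N := by
        rw [finrank_eq_card_basis b, Fintype.card_fin]
      unfold degree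
      rw [hNrank]
      linarith

end Pool.Agent.Results.MP_44a246_nt.LinearSystemsOnCurves
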