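import Mathlib
import Pool.Agent.Results.MP_9ec3f0_nt.AllDivisorsNumberFields
import Pool.Agent.R559.NP.Near

/-!
# Vojta's inequality with truncated counting function at all good approximations to a generic point

Let `K` be a number field of degree `n`, `m ≥ 1` (`m ≥ 2` if `K = ℚ`), and let `D = ∑ D_j` be ANY
reduced divisor of `ℙ^m` over `K`, with arbitrary singularities, with components `D_j : F_j = 0` of
degrees `κ_j` and weights `w_j` (`w_j = κ_j` for hyperplanes, quadrics and orbits of less than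
`3 ρ_j` conjugate hyperplanes which span a space of dimension `ρ_j`, `w_j = 2 ρ_j` for all other
orbits of hyperplanes, `w_j = 1` for all other components). On `ℙ^m` we have
`h_{K + D} = (∑ κ_j - m - 1) h`, so that the inequality
`(∑ w_j - ε) h(P) ≤ N_S^{(1)}(D, P) + O(1)` contains the inequality of the question if
`∑ (κ_j - w_j) ≤ m + 1`, for example if all `D_j` are hyperplanes, quadrics or orbits of at most
`3 m + 2` conjugate hyperplanes in general position, for ANY number of components.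

We prove: for almost all `ξ` in `(K ⊗ ℝ)^m` (`ℝ^m` if `K = ℚ`), for ALL divisors `D`, ALL `ε > 0`,
ALL finite sets `S` of primes and ALL `A`, the inequality
`(∑ w_j - ε) h(P) ≤ N_S^{(1)}(D, P) + ∑_{p ∈ S} log p` holds at ALL points `P` of `ℙ^m(K)`, up to
finitely many, with `|ξ - P|_v ≤ A H(P)^(-(1 + 1/m))` at all archimedean places `v`. No exceptional
subset is left. For `K = ℚ` Dirichlet's theorem gives infinitely many such `P` for every irrational
`ξ`, for example all best simultaneous approximations.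

More generally, let the points of `ℙ^m(K)` be mapped in any way to a metric space `X` (for example
the inclusion in the `p`-adic points, or in a product of completions), and let `τ > 0`. The points
which are approximated with exponent `τ` by the points of `ℙ^m(K)` always form a set of dimension at
most `n (m + 1) / τ`. For each `D` and `ε` the points which are approximated with exponent `τ` by
infinitely many violations of the inequality form a set of SMALLER Hausdorff dimension, and for every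
measure on `X` which vanishes on all sets of dimension less than `n (m + 1) / τ` almost no point is
approximated by infinitely many violations, for all `D` and `ε` at once. Again `Λ` times the heights
relative to ideals of codimension two may be added to the left hand side (this gives the inequality
on all smooth varieties birational to `ℙ^m`).
-/

set_option autoImplicit false

namespace Pool.Agent.Results.MP_44a246_nt.NearGenericPoints

open NumberField IsDedekindDomain Module MvPolynomial MeasureTheory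
open scoped LinearAlgebra.Projectivization ENNReal
open Pool.Agent.N752.HY (HasW hgt)
open Pool.Agent.Results.MP_9ec3f0_nt.AllDivisorsNumberFields (Points Inequality)

/-- A reduced divisor `D = ∑ D_j` of `ℙ^m` over `K` (`D_j : F_j = 0`, the forms `F_j` of degree `κ_j`
are irreducible over `K` and pairwise not associated) with admissible weights `w_j`, closed subsets
`F'_l = G'_l = 0` of codimension two, `Λ` and `θ < ∑ w_j`. -/
structure Datum (K : Type) [Field K] [NumberField K] (φ : K →+* ℂ) (m : ℕ) where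
  (q t : ℕ)
  F : Fin q → MvPolynomial (Fin (m + 1)) (𝓞 K)
  (κ w : Fin q → ℕ)
  (F' G' : Fin t → MvPolynomial (Fin (m + 1)) (𝓞 K))
  (κ' ε' : Fin t → ℕ)
  Λ : ℕ
  θ : ℝ
  hom : ∀ j, (F j).IsHomogeneous (κ j)
  irreducible : ∀ j, Irreducible (map (algebraMap (𝓞 K) K) (F j))
  distinct : ∀ i j, i ≠ j →
    ¬ Associated (map (algebraMap (𝓞 K) K) (F i)) (map (algebraMap (𝓞 K) K) (F j))
  weights : ∀ j, HasW (map (φ.comp (algebraMap (𝓞 K) K)) (F j)) (κ j) (w j)
  hom' : ∀ l, (F' l).IsHomogeneous (κ' l)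
  hom'' : ∀ l, (G' l).IsHomogeneous (ε' l)
  irreducible' : ∀ l, Irreducible (map (algebraMap (𝓞 K) K) (F' l))
  codim : ∀ l, ¬ map (algebraMap (𝓞 K) K) (F' l) ∣ map (algebraMap (𝓞 K) K) (G' l)
  lt : θ < ∑ j, (w j : ℝ)

variable {K : Type} [Field K] [NumberField K] {φ : K →+* ℂ} {m : ℕ} {X : Type} [MetricSpace X]

/-- The points `Q` of `ℙ^m(K)` with `dist (c Q, ξ) ≤ A H(Q)^(-τ)` at which the inequality
`θ h(Q) + Λ ∑_l h_{(F'_l, G'_l)}(Q) ≤ N_S^{(1)}(D, Q) + ∑_{p ∈ S} log p` fails for some finite set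
`S` of primes, or at which some `F_j` vanishes. -/
def Violations (D : Datum K φ m) (c : ℙ K (Fin (m + 1) → K) → X) (A τ : ℝ) (ξ : X) :
    Set (ℙ K (Fin (m + 1) → K)) :=
  {Q | dist (c Q) ξ ≤ A * Real.exp (-(τ * hgt Q.rep)) ∧
    ¬ Inequality D.F D.κ D.F' D.G' D.κ' D.ε' D.Λ D.θ Q}

/-- The affine coordinates `Q_i / Q_0` of a point of `ℙ^m(K)` in `(K ⊗ ℝ)^m`. -/
noncomputable def affine (Q : ℙ K (Fin (m + 1) → K)) : Fin m → mixedEmbedding.mixedSpace K :=
  fun i => mixedEmbedding K (Q.rep i.succ / Q.rep 0)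

instance : Countable (ℙ K (Fin (m + 1) → K)) := by
  have hcount : Countable K := (Module.finBasis ℚ K).equivFun.toEquiv.countable_iff.2 inferInstance
  exact Function.Injective.countable (f := fun Q : ℙ K (Fin (m + 1) → K) => Q.rep)
    fun Q Q' h => by
      have h1 := Q.mk_rep
      have h2 := Q'.mk_rep
      rw [← h1, ← h2]
      simp only at h
      congr 1

lemma hgt_nonneg (Q : ℙ K (Fin (m + 1) → K)) : 0 ≤ hgt Q.rep := by
  unfold hgt
  have h := Height.logHeight_nonneg Q.rep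
  positivity

/-- the counting estimate in terms of `H = exp h` -/
lemma count (hm : 1 ≤ m) (hd : 3 ≤ finrank ℚ K * (m + 1)) (D : Datum K φ m) :
    ∃ s : ℝ, 0 ≤ s ∧ s < finrank ℚ K * (m + 1) ∧ ∃ C : ℝ, ∀ B : ℝ, 1 ≤ B →
      {Q : ℙ K (Fin (m + 1) → K) | ¬ Inequality D.F D.κ D.F' D.G' D.κ' D.ε' D.Λ D.θ Q ∧
        Real.exp (hgt Q.rep) ≤ B}.Finite ∧
      (({Q : ℙ K (Fin (m + 1) → K) | ¬ Inequality D.F D.κ D.F' D.G' D.κ' D.ε' D.Λ D.θ Q ∧
        Real.exp (hgt Q.rep) ≤ B}.ncard : ℕ) : ℝ) ≤ C * B ^ s := by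
  obtain ⟨E₀, -, h⟩ := Pool.Agent.Results.MP_9ec3f0_nt.AllDivisorsNumberFields.result K φ m hm hd
  obtain ⟨-, c, C, hc, hC⟩ := h D.q D.t D.F D.κ D.w D.F' D.G' D.κ' D.ε' D.hom D.irreducible
    D.distinct D.weights D.hom' D.hom'' D.irreducible' D.codim D.Λ D.θ D.lt
  have hn : (3 : ℝ) ≤ (finrank ℚ K : ℝ) * ((m : ℝ) + 1) := by exact_mod_cast hd
  refine ⟨max 0 ((finrank ℚ K : ℝ) * (m + 1) - c), le_max_left _ _, ?_, max C 0, ?_⟩
  · rw [max_lt_iff]
    constructor <;> linarith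
  intro B hB
  have hB0 : 0 < B := by linarith
  have hset : {Q : ℙ K (Fin (m + 1) → K) | ¬ Inequality D.F D.κ D.F' D.G' D.κ' D.ε' D.Λ D.θ Q ∧
      Real.exp (hgt Q.rep) ≤ B} = {Q | Q ∈ Points K m (Real.log B) ∧
        ¬ Inequality D.F D.κ D.F' D.G' D.κ' D.ε' D.Λ D.θ Q} := by
    ext Q
    simp only [Set.mem_ofPred_eq, Points]
    rw [Real.le_log_iff_exp_le hB0]
    tauto
  rw [hset]
  obtain ⟨h1, h2⟩ := hC (Real.log B) (Real.log_nonneg hB)
  refine ⟨h1, h2.trans ?_⟩
  calc C * Real.exp (((finrank ℚ K : ℝ) * (m + 1) - c) * Real.log B)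
      ≤ max C 0 * Real.exp (((finrank ℚ K : ℝ) * (m + 1) - c) * Real.log B) :=
        mul_le_mul_of_nonneg_right (le_max_left _ _) (Real.exp_pos _).le
    _ ≤ max C 0 * B ^ max 0 ((finrank ℚ K : ℝ) * (m + 1) - c) := by
        refine mul_le_mul_of_nonneg_left ?_ (le_max_right _ _)
        rw [Real.rpow_def_of_pos hB0, mul_comm (Real.log B)]
        refine Real.exp_le_exp.2 (mul_le_mul_of_nonneg_right (le_max_right _ _) ?_)
        exact Real.log_nonneg hB

lemma rpow_exp (x τ : ℝ) : Real.exp x ^ (-τ) = Real.exp (-(τ * x)) := by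
  rw [← Real.exp_mul]
  congr 1
  ring

/-- the dimension bound for one datum -/
lemma dim_one (hm : 1 ≤ m) (hd : 3 ≤ finrank ℚ K * (m + 1)) (D : Datum K φ m)
    (c : ℙ K (Fin (m + 1) → K) → X) {τ : ℝ} (hτ : 0 < τ) :
    ∃ E : Set X, dimH E < ENNReal.ofReal ((finrank ℚ K : ℝ) * (m + 1) / τ) ∧
      ∀ ξ : X, ξ ∉ E → ∀ A : ℝ, (Violations D c A τ ξ).Finite := by
  obtain ⟨s, hs0, hs, C, hC⟩ := count hm hd D
  obtain ⟨E, hE, h⟩ := Pool.Agent.R559.NP.near_dim (T := ℙ K (Fin (m + 1) → K)) (X := X)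
    (H := fun Q => Real.exp (hgt Q.rep)) (fun Q => Real.one_le_exp (hgt_nonneg Q))
    (Bad := fun Q => ¬ Inequality D.F D.κ D.F' D.G' D.κ' D.ε' D.Λ D.θ Q) (s := s) (τ := τ) hs0 hτ
    (fun ε hε => by
      refine ⟨max C 0, fun B hB => ?_⟩
      obtain ⟨h1, h2⟩ := hC B hB
      refine ⟨h1, h2.trans ?_⟩
      have hB0 : 0 < B := by linarith
      calc C * B ^ s ≤ max C 0 * B ^ s :=
            mul_le_mul_of_nonneg_right (le_max_left _ _) (Real.rpow_nonneg hB0.le _)
        _ ≤ max C 0 * B ^ (s + ε) :=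
            mul_le_mul_of_nonneg_left (Real.rpow_le_rpow_of_exponent_le hB (by linarith))
              (le_max_right _ _)) c
  refine ⟨E, hE.trans_lt ?_, fun ξ hξ A => ?_⟩
  · rw [ENNReal.ofReal_lt_ofReal_iff (div_pos (by linarith) hτ)]
    exact div_lt_div_of_pos_right hs hτ
  · have h1 := h ξ hξ A
    refine h1.subset ?_
    rintro Q ⟨h2, h3⟩
    refine ⟨?_, h3⟩
    rw [rpow_exp]
    exact h2

/-- the inequality becomes weaker when `θ` decreases -/
lemma inequality_mono {q t Λ : ℕ} {F : Fin q → MvPolynomial (Fin (m + 1)) (𝓞 K)} {κ : Fin q → ℕ}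
    {F' G' : Fin t → MvPolynomial (Fin (m + 1)) (𝓞 K)} {κ' ε' : Fin t → ℕ} {θ θ' : ℝ}
    (h : θ ≤ θ') {Q : ℙ K (Fin (m + 1) → K)} (hQ : Inequality F κ F' G' κ' ε' Λ θ' Q) :
    Inequality F κ F' G' κ' ε' Λ θ Q := by
  refine ⟨hQ.1, fun S hS => le_trans ?_ (hQ.2 S hS)⟩
  have := mul_le_mul_of_nonneg_right h (hgt_nonneg Q)
  linarith

open Pool.Agent.N752.HY.KPts (Dat countable_poly)

/-- the countable data -/
def Good (φ : K →+* ℂ) (s : Dat K m) : Prop :=
  (∀ j, (s.1.2.1 j).IsHomogeneous (s.1.2.2.1 j)) ∧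
  (∀ j, Irreducible (map (algebraMap (𝓞 K) K) (s.1.2.1 j))) ∧
  (∀ i j, i ≠ j →
    ¬ Associated (map (algebraMap (𝓞 K) K) (s.1.2.1 i)) (map (algebraMap (𝓞 K) K) (s.1.2.1 j))) ∧
  (∀ j, HasW (map (φ.comp (algebraMap (𝓞 K) K)) (s.1.2.1 j)) (s.1.2.2.1 j) (s.1.2.2.2 j)) ∧
  (∀ l, (s.2.1.2.1 l).IsHomogeneous (s.2.1.2.2.2.1 l)) ∧
  (∀ l, (s.2.1.2.2.1 l).IsHomogeneous (s.2.1.2.2.2.2 l)) ∧
  (∀ l, Irreducible (map (algebraMap (𝓞 K) K) (s.2.1.2.1 l))) ∧
  (∀ l, ¬ map (algebraMap (𝓞 K) K) (s.2.1.2.1 l) ∣ map (algebraMap (𝓞 K) K) (s.2.1.2.2.1 l))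

/-- the datum with `θ = ∑ w_j - 1 / (N + 1)` -/
noncomputable def datum (s : Dat K m) (h : Good φ s) : Datum K φ m where
  q := s.1.1
  t := s.2.1.1
  F := s.1.2.1
  κ := s.1.2.2.1
  w := s.1.2.2.2
  F' := s.2.1.2.1
  G' := s.2.1.2.2.1
  κ' := s.2.1.2.2.2.1
  ε' := s.2.1.2.2.2.2
  Λ := s.2.2.2
  θ := (∑ j, (s.1.2.2.2 j : ℝ)) - 1 / ((s.2.2.1 : ℝ) + 1)
  hom := h.1
  irreducible := h.2.1
  distinct := h.2.2.1
  weights := h.2.2.2.1
  hom' := h.2.2.2.2.1
  hom'' := h.2.2.2.2.2.1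
  irreducible' := h.2.2.2.2.2.2.1
  codim := h.2.2.2.2.2.2.2
  lt := by
    have : (0 : ℝ) < 1 / ((s.2.2.1 : ℝ) + 1) := by positivity
    linarith

/-- every datum is dominated by one of countably many data -/
lemma dominated (D : Datum K φ m) : ∃ (s : Dat K m) (h : Good φ s), ∀ (c : ℙ K (Fin (m + 1) → K) → X)
    (A τ : ℝ) (ξ : X), Violations D c A τ ξ ⊆ Violations (datum s h) c A τ ξ := by
  obtain ⟨N, hN⟩ := exists_nat_gt (1 / ((∑ j, (D.w j : ℝ)) - D.θ))
  have hpos : 0 < (∑ j, (D.w j : ℝ)) - D.θ := by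
    have := D.lt
    linarith
  refine ⟨(⟨D.q, D.F, D.κ, D.w⟩, ⟨D.t, D.F', D.G', D.κ', D.ε'⟩, N, D.Λ),
    ⟨D.hom, D.irreducible, D.distinct, D.weights, D.hom', D.hom'', D.irreducible', D.codim⟩, ?_⟩
  rintro c A τ ξ Q ⟨h1, h2⟩
  refine ⟨h1, fun h3 => h2 (inequality_mono ?_ h3)⟩
  show D.θ ≤ (∑ j, (D.w j : ℝ)) - 1 / ((N : ℝ) + 1)
  have h4 : 1 / ((N : ℝ) + 1) ≤ (∑ j, (D.w j : ℝ)) - D.θ := by
    rw [div_le_iff₀ (by positivity)]
    rw [div_lt_iff₀ hpos] at hN
    nlinarith
  linarith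

/-- almost no point is approximated by infinitely many violations, for all data at once -/
lemma ae_all (hm : 1 ≤ m) (hd : 3 ≤ finrank ℚ K * (m + 1)) (c : ℙ K (Fin (m + 1) → K) → X) {τ : ℝ}
    (hτ : 0 < τ) [MeasurableSpace X] (μ : Measure X)
    (hμ : ∀ E : Set X, dimH E < ENNReal.ofReal ((finrank ℚ K : ℝ) * (m + 1) / τ) → μ E = 0) :
    ∀ᵐ ξ ∂μ, ∀ (D : Datum K φ m) (A : ℝ), (Violations D c A τ ξ).Finite := by
  have hcount := countable_poly K m
  have h : ∀ s : {s : Dat K m // Good φ s}, ∀ᵐ ξ ∂μ, ∀ A : ℝ,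
      (Violations (datum s.1 s.2) c A τ ξ).Finite := by
    intro s
    obtain ⟨E, hE, h⟩ := dim_one hm hd (datum s.1 s.2) c hτ
    have h1 := hμ E hE
    rw [measure_eq_zero_iff_ae_notMem] at h1
    filter_upwards [h1] with ξ hξ
    exact h ξ hξ
  filter_upwards [ae_all_iff.2 h] with ξ hξ D A
  obtain ⟨s, hs, h2⟩ := dominated (X := X) D
  exact (hξ ⟨s, hs⟩ A).subset (h2 c A τ ξ)

open scoped Classical in
/-- sets of small dimension are null sets in `(K ⊗ ℝ)^m` -/
lemma null_of_dim (hm : 1 ≤ m) (E : Set (Fin m → mixedEmbedding.mixedSpace K))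
    (hE : dimH E < ENNReal.ofReal ((finrank ℚ K : ℝ) * (m + 1) / (1 + 1 / m))) :
    volume E = 0 := by
  have i1 : SecondCountableTopology (mixedEmbedding.mixedSpace K) := inferInstance
  have i2 : BorelSpace (mixedEmbedding.mixedSpace K) := inferInstance
  have i3 : BorelSpace (Fin m → mixedEmbedding.mixedSpace K) := Pi.borelSpace
  have i4 : SigmaFinite (volume : Measure (mixedEmbedding.mixedSpace K)) := inferInstance
  have i5 : Measure.IsAddHaarMeasure (volume : Measure (mixedEmbedding.mixedSpace K)) :=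
    inferInstance
  have i6 : Measure.IsAddHaarMeasure (volume : Measure (Fin m → mixedEmbedding.mixedSpace K)) :=
    Measure.pi.isAddHaarMeasure _
  have i7 : SigmaFinite (volume : Measure (Fin m → mixedEmbedding.mixedSpace K)) :=
    Measure.pi.sigmaFinite _
  have hm0 : (0 : ℝ) < m := by exact_mod_cast hm
  have e1 : (finrank ℚ K : ℝ) * (m + 1) / (1 + 1 / m) = ((m * finrank ℚ K : ℕ) : ℝ) := by
    push_cast
    field_simp
  have e2 : finrank ℝ (Fin m → mixedEmbedding.mixedSpace K) = m * finrank ℚ K := by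
    rw [Module.finrank_pi_fintype, Finset.sum_const, Finset.card_univ, Fintype.card_fin,
      mixedEmbedding.finrank, smul_eq_mul]
  rw [e1, ← e2, ENNReal.ofReal_natCast] at hE
  have h1 : Measure.hausdorffMeasure (finrank ℝ (Fin m → mixedEmbedding.mixedSpace K) : ℝ) E = 0 := by
    have h2 : dimH E < ((finrank ℝ (Fin m → mixedEmbedding.mixedSpace K) : ℕ) : NNReal) := by
      exact_mod_cast hE
    have h3 := hausdorffMeasure_of_dimH_lt h2
    exact_mod_cast h3
  exact (MeasureTheory.Measure.absolutelyContinuous_isAddHaarMeasure _ _) h1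

open scoped Classical in
/-- **Theorem.** Let `K` be a number field with an embedding `φ` in the complex numbers,
`n = [K : ℚ]`, `m ≥ 1` and `n (m + 1) ≥ 3`.

(1) Let `τ > 0` and let `c` be ANY map of `ℙ^m(K)` to a metric space `X`. For every datum `D` (a
reduced divisor with weights, and `θ < ∑ w_j`) there is a set `E ⊆ X` of Hausdorff dimension less
than `n (m + 1) / τ` such that for all `ξ ∉ E` and all `A` only finitely many points `Q` of `ℙ^m(K)`
with `dist (c Q, ξ) ≤ A H(Q)^(-τ)` violate the inequality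
`θ h(Q) + Λ ∑_l h_{(F'_l, G'_l)}(Q) ≤ N_S^{(1)}(D, Q) + ∑_{p ∈ S} log p` (for some `S`).

(2) Let `μ` be a measure on `X` which vanishes on all sets of dimension less than `n (m + 1) / τ`.
For `μ`-almost all `ξ` and ALL data `D` and all `A` there are only finitely many such points.

(3) For Lebesgue-almost all `ξ` in `(K ⊗ ℝ)^m`, ALL data `D` and all `A` only finitely many points `Q`
of `ℙ^m(K)` with `|Q - ξ| ≤ A H(Q)^(-(1 + 1/m))` (maximum over the archimedean places) violate the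
inequality. -/
theorem result (K : Type) [Field K] [NumberField K] (φ : K →+* ℂ) (m : ℕ) (hm : 1 ≤ m)
    (hd : 3 ≤ finrank ℚ K * (m + 1)) :
    (∀ (X : Type) [MetricSpace X] (c : ℙ K (Fin (m + 1) → K) → X) (τ : ℝ), 0 < τ →
      (∀ D : Datum K φ m, ∃ E : Set X,
        dimH E < ENNReal.ofReal ((finrank ℚ K : ℝ) * (m + 1) / τ) ∧
        ∀ ξ : X, ξ ∉ E → ∀ A : ℝ, (Violations D c A τ ξ).Finite) ∧
      ∀ [MeasurableSpace X] (μ : Measure X),
        (∀ E : Set X, dimH E < ENNReal.ofReal ((finrank ℚ K : ℝ) * (m + 1) / τ) → μ E = 0) →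
        ∀ᵐ ξ ∂μ, ∀ (D : Datum K φ m) (A : ℝ), (Violations D c A τ ξ).Finite) ∧
    ∀ᵐ ξ : Fin m → mixedEmbedding.mixedSpace K, ∀ (D : Datum K φ m) (A : ℝ),
      (Violations D affine A (1 + 1 / m) ξ).Finite := by
  refine ⟨fun X _ c τ hτ => ⟨fun D => dim_one hm hd D c hτ, fun μ hμ => ae_all hm hd c hτ μ hμ⟩, ?_⟩
  exact ae_all hm hd affine (by positivity) volume fun E hE => null_of_dim hm E hE

end Pool.Agent.Results.MP_44a246_nt.NearGenericPoints
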